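import Pool.Agent.TH612.GS.Stm3
import Pool.Agent.TH889.GS.OP

set_option autoImplicit false

/-!
Project GF, part OQ: zeta minus its partial sum of length about `T`, as a convolution operator
(helper236, job 5225).
-/

namespace Pool.Agent.TH236.GF

open Complex MeasureTheory Set
open Pool.Agent.TH612.GS

theorem t_OQ (hAQ : S_AQ) : Pool.Agent.TH612.GS.S_OQ := by
  obtain ⟨C, T₀, hC, hT₀, h⟩ := hAQ
  refine ⟨C ^ 2, T₀, by positivity, hT₀, ?_⟩
  intro T S X R hT hS hST hX1 hX2 hR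
  have hT0 : 0 < T := by linarith
  have he : Continuous fun u => z u - PN X u :=
    Pool.Agent.TH889.GS.cont_z.sub (Pool.Agent.TH889.GS.cont_PN X)
  have p1 := Pool.Agent.TH889.GS.part1 he hR hS hST
  refine p1.trans ?_
  have p2 := h T X hT hX1 hX2
  have p3 : 0 ≤ ∫ u in (0:ℝ)..(2 * T), ‖z u - PN X u‖ :=
    intervalIntegral.integral_nonneg (by linarith) fun _ _ => norm_nonneg _
  have p4 : (T ^ (1 / 2 : ℝ)) ^ 2 = T := by
    rw [← Real.rpow_natCast, ← Real.rpow_mul hT0.le]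
    norm_num
  have p5 : (∫ u in (0:ℝ)..(2 * T), ‖z u - PN X u‖) ^ 2 ≤ C ^ 2 * (T * Real.log T ^ 2) := by
    calc _ ≤ (C * (T ^ (1 / 2 : ℝ) * Real.log T)) ^ 2 := pow_le_pow_left₀ p3 p2 2
      _ = C ^ 2 * ((T ^ (1 / 2 : ℝ)) ^ 2 * Real.log T ^ 2) := by ring
      _ = _ := by rw [p4]
  exact mul_le_mul_of_nonneg_right p5
    (intervalIntegral.integral_nonneg hS fun _ _ => by positivity)

end Pool.Agent.TH236.GF
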